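import Pool.Agent.N929.EZ.Stm3
import Pool.Agent.H739K.AREA
import Pool.Agent.H739K.HOR
import Pool.Agent.H739K.CONV

/-!
# EZ/AR: the area enclosed by a closed walk after filling slots
-/

set_option autoImplicit false

namespace Pool.Agent.N342.EZ

open Finset Pool.Agent.H976R2 Pool.Agent.H976R2.Lip Pool.Agent.H924P Pool.Agent.H739K
open Pool.Agent.N929.EX Pool.Agent.N929.EY Pool.Agent.N929.EZ
theorem ed_cases (p q c : ℤ × ℤ) :
    ((((p.1 = c.1 ∧ q.1 = c.1 + 1) ∨ (p.1 = c.1 + 1 ∧ q.1 = c.1)) ∧ c.2 < p.2) ∧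
      AREAx.ed p q c = 1) ∨
    (¬ (((p.1 = c.1 ∧ q.1 = c.1 + 1) ∨ (p.1 = c.1 + 1 ∧ q.1 = c.1)) ∧ c.2 < p.2) ∧
      AREAx.ed p q c = 0) := by
  by_cases h : AREAx.Q p q c
  · exact Or.inl ⟨h, if_pos h⟩
  · exact Or.inr ⟨h, if_neg h⟩

theorem local_flip (P c : ℤ × ℤ) (d e : Dir) (h : perp e d)
    (hc : c = (min P.1 (P.1 + dx e + dx d), min P.2 (P.2 + dy e + dy d))) :
    (AREAx.ed P (P + dv e) c + (AREAx.ed (P + dv e) (P + dv e + dv d) c +
      AREAx.ed (P + dv e + dv d) (P + dv d) c) + AREAx.ed P (P + dv d) c) % 2 = 1 := by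
  have h1 := ed_cases P (P + dv e) c
  have h2 := ed_cases (P + dv e) (P + dv e + dv d) c
  have h3 := ed_cases (P + dv e + dv d) (P + dv d) c
  have h4 := ed_cases P (P + dv d) c
  generalize AREAx.ed P (P + dv e) c = n1 at *
  generalize AREAx.ed (P + dv e) (P + dv e + dv d) c = n2 at *
  generalize AREAx.ed (P + dv e + dv d) (P + dv d) c = n3 at *
  generalize AREAx.ed P (P + dv d) c = n4 at *
  obtain ⟨x, y⟩ := P
  obtain ⟨a, b⟩ := c
  rw [Prod.mk.injEq] at hc
  obtain ⟨hc1, hc2⟩ := hc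
  cases e <;> cases d <;> simp [perp, dx, dy] at h <;>
    simp only [dv, dx, dy, Prod.mk_add_mk] at hc1 hc2 h1 h2 h3 h4 <;> omega

open scoped Classical

/-- the enclosed cells of a word -/
def En (w : List Dir) : Set (ℤ × ℤ) := {c | Encl (w.length + 1) (lp (w.length + 1) w) c}

theorem disp_ins (w : List Dir) (i : ℕ) (e : Dir) (hi : i < w.length) :
    AREAx.disp (ins w i e) = AREAx.disp w := by
  have hs := split_at w i hi
  set d := lt w i with hd
  have hins : ins w i e = w.take i ++ (e :: d :: opp e :: w.drop (i + 1)) := rfl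
  rw [hins]
  conv_rhs => rw [hs]
  unfold AREAx.disp
  simp only [wX_append, wY_append, wX_cons, wY_cons, dx_opp, dy_opp, Prod.mk.injEq]
  constructor <;> ring

theorem sq_ins (w : List Dir) (i : ℕ) (e : Dir) (hi : i < w.length) :
    sq (ins w i e) = sq w := by
  have h := disp_ins w i e hi
  unfold AREAx.disp at h
  rw [Prod.mk.injEq] at h
  unfold H976R2.sq
  rw [h.1, h.2]

theorem encl_flip (w : List Dir) (i : ℕ) (e : Dir) (hi : i < w.length) (he : perp e (lt w i))
    (c : ℤ × ℤ) (hc : c = (min (PP w i).1 ((PP w i).1 + dx e + dx (lt w i)),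
      min (PP w i).2 ((PP w i).2 + dy e + dy (lt w i)))) :
    Encl ((ins w i e).length + 1) (lp ((ins w i e).length + 1) (ins w i e)) c ↔
      ¬ Encl (w.length + 1) (lp (w.length + 1) w) c := by
  rw [AREAx.encl_iff, AREAx.encl_iff]
  have hdisp := disp_ins w i e hi
  have hs := split_at w i hi
  set d := lt w i with hd
  have hins : ins w i e = w.take i ++ (e :: d :: opp e :: w.drop (i + 1)) := rfl
  have hP : (0 : ℤ × ℤ) + AREAx.disp (w.take i) = PP w i := by rw [zero_add]; rfl
  have h1 : AREAx.cw c 0 (ins w i e) = AREAx.cw c 0 (w.take i) +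
      (AREAx.ed (PP w i) (PP w i + dv e) c +
      (AREAx.ed (PP w i + dv e) (PP w i + dv e + dv d) c +
      (AREAx.ed (PP w i + dv e + dv d) (PP w i + dv d) c +
        AREAx.cw c (PP w i + dv d) (w.drop (i + 1))))) := by
    rw [hins, AREAx.cw_append, hP]
    simp only [AREAx.cw]
    have h2 : PP w i + dv e + dv d + dv (opp e) = PP w i + dv d := by
      unfold dv
      rw [dx_opp, dy_opp]
      ext
      · simp only [Prod.fst_add]; ring
      · simp only [Prod.snd_add]; ring
    rw [h2]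
  have h2 : AREAx.cw c 0 w = AREAx.cw c 0 (w.take i) + (AREAx.ed (PP w i) (PP w i + dv d) c +
      AREAx.cw c (PP w i + dv d) (w.drop (i + 1))) := by
    conv_lhs => rw [hs]
    rw [AREAx.cw_append, hP]
    simp only [AREAx.cw]
  have h3 := local_flip (PP w i) c d e he hc
  rw [hdisp, h1, h2, Nat.odd_iff, Nat.odd_iff]
  omega

theorem En_finite (w : List Dir) (hw : w ∈ SW w.length) (hsq : sq w = 1) : (En w).Finite := by
  have hk : w ∈ KP w.length := Finset.mem_filter.2 ⟨hw, hsq⟩
  have h1 : pth w.length w ∈ {f | IsLoop (w.length + 1) f} := by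
    rw [← CONV.image_eq]
    exact ⟨w, hk, rfl⟩
  have h2 : IsLoop (w.length + 1) (lp (w.length + 1) w) := h1
  exact HORaux.finite_encl (f := lp (w.length + 1) w) h2.2.2

theorem mem_En_ins (w : List Dir) (i : ℕ) (e : Dir) (hi : i < w.length) (he : perp e (lt w i))
    (q : ℤ × ℤ) (hq : q = (min (PP w i).1 ((PP w i).1 + dx e + dx (lt w i)),
      min (PP w i).2 ((PP w i).2 + dy e + dy (lt w i)))) (c : ℤ × ℤ) :
    c ∈ En (ins w i e) ↔ ¬ (c ∈ En w ↔ c = q) := by
  by_cases hc : c = q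
  · have h := encl_flip w i e hi he c (hc.trans hq)
    have h' : c ∈ En (ins w i e) ↔ ¬ c ∈ En w := h
    rw [h']
    tauto
  · have h := AREAx.encl_same w i e hi he c (fun h => hc (h.trans hq.symm))
    have h' : c ∈ En (ins w i e) ↔ c ∈ En w := h
    rw [h']
    tauto

theorem key (hB : S_BPI) (L : Finset (ℤ × ℤ)) (a l : ℕ) (st : List Dir → List Dir)
    (fl : List Dir → Finset (ℤ × ℤ) → List Dir) (hF : Fill L a l st fl) (w : List Dir)
    (hE : Em L a l w) (hsq : sq w = 1) :
    ∀ (n : ℕ) (U : Finset (ℤ × ℤ)), U.card = n → U ⊆ Sl L a l w →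
      sq (fl w U) = 1 ∧ ∀ c, c ∈ En (fl w U) ↔ ¬ (c ∈ En w ↔ c ∈ U) := by
  intro n
  induction n with
  | zero =>
    intro U hU _
    rw [Finset.card_eq_zero] at hU
    subst hU
    rw [hF.fl_empty w hE]
    refine ⟨hsq, fun c => ?_⟩
    simp
  | succ n ih =>
    intro U hU hsub
    have hne : U.Nonempty := Finset.card_pos.1 (by omega)
    obtain ⟨q, hq, hmax⟩ := Finset.exists_max_image U (fun x => toLex x) hne
    have hU' : (U.erase q).card = n := by
      rw [Finset.card_erase_of_mem hq, hU]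
      rfl
    have hsub' : U.erase q ⊆ Sl L a l w := (Finset.erase_subset q U).trans hsub
    obtain ⟨ih1, ih2⟩ := ih (U.erase q) hU' hsub'
    obtain ⟨k, hk1, hk2, hbp⟩ := hF.fl_insert w (U.erase q) q hE hsub' (hsub hq)
      (Finset.notMem_erase q U) (by
        intro x hx
        have hx1 := Finset.ne_of_mem_erase hx
        have hx2 := hmax x (Finset.mem_of_mem_erase hx)
        have hx3 : toLex x < toLex q := lt_of_le_of_ne hx2 (fun h => hx1 (toLex.injective h))
        rwa [Prod.Lex.toLex_lt_toLex] at hx3)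
    rw [Finset.insert_erase hq] at hbp
    obtain ⟨e, he1, he2, he3⟩ := hB _ _ _ _ _ hbp (by omega) (by omega)
    rw [adm, Finset.mem_filter, Finset.mem_product, Finset.mem_range] at he1
    have hi := he1.1.1
    have hp := he1.2.1
    refine ⟨?_, fun c => ?_⟩
    · rw [he2, sq_ins _ _ _ hi]
      exact ih1
    · rw [he2, mem_En_ins _ _ _ hi hp q he3 c, ih2 c, Finset.mem_erase]
      by_cases h2 : c = q
      · have h3 : c ∈ U := by rw [h2]; exact hq
        tauto
      · tauto

theorem ar_fill (h : S_BPI) : S_AR := by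
  intro L _ a l st fl hF w hE _ hsq U hU
  obtain ⟨-, h2⟩ := key h L a l st fl hF w hE hsq U.card U rfl hU
  have hfin := En_finite w hE.2.1 hsq
  have hA : ar (fl w U) = (En (fl w U)).ncard := rfl
  have hB : ar w = (En w).ncard := rfl
  set E := hfin.toFinset with hEE
  have hmE : ∀ c, c ∈ E ↔ c ∈ En w := fun c => hfin.mem_toFinset
  have h3 : En (fl w U) = ((E \ U ∪ U \ E : Finset (ℤ × ℤ)) : Set (ℤ × ℤ)) := by
    ext c
    rw [h2 c]
    simp only [Finset.coe_union, Finset.coe_sdiff, Set.mem_union, Set.mem_sdiff, Finset.mem_coe,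
      hmE]
    tauto
  have h4 : En w = (E : Set (ℤ × ℤ)) := by
    ext c
    rw [Finset.mem_coe, hmE]
  have hd : Disjoint (E \ U) (U \ E) := by
    rw [Finset.disjoint_left]
    intro x hx hx'
    rw [Finset.mem_sdiff] at hx hx'
    exact hx.2 hx'.1
  rw [hA, hB, h3, h4, Set.ncard_coe_finset, Set.ncard_coe_finset, Finset.card_union_of_disjoint hd]
  have h5 : ∑ q ∈ U, (if Encl (w.length + 1) (lp (w.length + 1) w) q then (-1 : ℝ) else 1) =
      ∑ q ∈ U, (if q ∈ E then (-1 : ℝ) else 1) := by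
    refine Finset.sum_congr rfl fun q _ => ?_
    have h6 : q ∈ E ↔ Encl (w.length + 1) (lp (w.length + 1) w) q := hmE q
    by_cases h7 : Encl (w.length + 1) (lp (w.length + 1) w) q
    · rw [if_pos h7, if_pos (h6.2 h7)]
    · rw [if_neg h7, if_neg (fun h8 => h7 (h6.1 h8))]
  rw [h5, Finset.sum_ite, Finset.sum_const, Finset.sum_const, Finset.filter_mem_eq_inter,
    Finset.filter_notMem_eq_sdiff]
  have h6 : ((E \ U).card : ℝ) = (E.card : ℝ) - ((U ∩ E).card : ℝ) := by
    have h7 := Finset.card_sdiff_add_card_inter E U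
    rw [Finset.inter_comm] at h7
    rw [← h7]
    push_cast
    ring
  push_cast
  rw [h6]
  simp only [nsmul_eq_mul]
  ring

end Pool.Agent.N342.EZ
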